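import Mathlib

/-!
# Degree-preserving amalgamation of real zero polynomials fails in two shared variables

For all `m, n ≥ 1` there are real zero polynomials `p ∈ ℝ[x₁, x₂, y]`, `q ∈ ℝ[x₁, x₂, z]` (with `m`
variables `y` and `n` variables `z`) of total degree at most `3` with `p(x, 0) = q(x, 0)` which have
no common real zero extension `r ∈ ℝ[x, y, z]` of total degree at most `3`.

The polynomials are `p = 1 - x₁² - x₂² + y₁ (1 - x₂²)` and `q = 1 - x₁² - x₂² + z₁ (1 - x₁)`.
They come from the two inequivalent definite determinantal representations of the cubic form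
`t (t² - x₁² - x₂²)`.
-/

set_option autoImplicit false

open MvPolynomial Filter Topology

namespace Pool.Agent.Results.MP_eea824_ag.NoDegreePreservingAmalgam

/-- `f` is a real zero polynomial: for every real vector `a`, every complex number `l` with
`f (l a) = 0` is real. -/
def RealZero {σ : Type} (f : MvPolynomial σ ℝ) : Prop :=
  ∀ (a : σ → ℝ) (l : ℂ), aeval (fun i => l * (a i : ℂ)) f = 0 → l.im = 0

/-- The polynomial `f(x, 0)`: the variables of the second group are set to zero. -/
noncomputable def atZero {α β : Type} (f : MvPolynomial (α ⊕ β) ℝ) : MvPolynomial α ℝ :=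
  aeval (Sum.elim X (fun _ => 0)) f

/-- The polynomial `r(x, y, 0)`. -/
noncomputable def zZero {α β γ : Type} (r : MvPolynomial (α ⊕ (β ⊕ γ)) ℝ) :
    MvPolynomial (α ⊕ β) ℝ :=
  aeval (Sum.elim (fun i => X (Sum.inl i)) (Sum.elim (fun j => X (Sum.inr j)) (fun _ => 0))) r

/-- The polynomial `r(x, 0, z)`. -/
noncomputable def yZero {α β γ : Type} (r : MvPolynomial (α ⊕ (β ⊕ γ)) ℝ) :
    MvPolynomial (α ⊕ γ) ℝ :=
  aeval (Sum.elim (fun i => X (Sum.inl i)) (Sum.elim (fun _ => 0) (fun j => X (Sum.inr j)))) r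

/-! ## Real zero polynomials from symmetric matrices -/

/-- If `det (1 + l M) = 0` for a real symmetric matrix `M`, then `l` is real. -/
lemma im_eq_zero_of_det {k : ℕ} (M : Matrix (Fin k) (Fin k) ℝ) (hM : M.IsSymm) (l : ℂ)
    (h : (1 + l • M.map (algebraMap ℝ ℂ)).det = 0) : l.im = 0 := by
  classical
  set N : Matrix (Fin k) (Fin k) ℂ := M.map (algebraMap ℝ ℂ) with hN
  have hH : N.IsHermitian := by
    ext i j
    simp only [hN, Matrix.conjTranspose_apply, Matrix.map_apply]
    have := congrFun (congrFun hM i) j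
    rw [Matrix.transpose_apply] at this
    rw [this]
    simp
  by_contra hl
  have hl0 : l ≠ 0 := by
    rintro rfl
    simp at hl
  obtain ⟨v, hv0, hv⟩ := Matrix.exists_mulVec_eq_zero_iff.mpr h
  rw [Matrix.add_mulVec, Matrix.one_mulVec, Matrix.smul_mulVec] at hv
  have h1 : star v ⬝ᵥ v + l * (star v ⬝ᵥ (N.mulVec v)) = 0 := by
    have := congrArg (fun w => star v ⬝ᵥ w) hv
    simpa [dotProduct_add, dotProduct_smul] using this
  have hq : (star v ⬝ᵥ (N.mulVec v)).im = 0 := by
    have := hH.im_star_dotProduct_mulVec_self v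
    simpa using this
  have hp : (star v ⬝ᵥ v).im = 0 := by
    have : (1 : Matrix (Fin k) (Fin k) ℂ).IsHermitian := Matrix.isHermitian_one
    have := this.im_star_dotProduct_mulVec_self v
    simpa using this
  have hpos : (star v ⬝ᵥ v).re ≠ 0 := by
    intro h0
    apply hv0
    have : star v ⬝ᵥ v = 0 := Complex.ext h0 hp
    open ComplexOrder in
    exact dotProduct_star_self_eq_zero.mp this
  have hre := congrArg Complex.re h1
  have him := congrArg Complex.im h1
  simp only [Complex.add_re, Complex.add_im, Complex.mul_re, Complex.mul_im, hq, hp,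
    Complex.zero_re, Complex.zero_im, mul_zero, sub_zero, zero_add] at hre him
  rcases mul_eq_zero.mp him with h2 | h2
  · exact hl h2
  · rw [h2] at hre
    simp at hre
    exact hpos hre

/-! ## Real-rooted cubics -/

/-- If every complex root of a monic real cubic is real then its discriminant and the two Newton
expressions are nonnegative. -/
lemma cubic_ineq (A B C : ℝ)
    (h : ∀ t : ℂ, t ^ 3 + (A : ℂ) * t ^ 2 + (B : ℂ) * t + (C : ℂ) = 0 → t.im = 0) :
    3 * (A * C) ≤ B ^ 2 ∧
      0 ≤ 18 * A * B * C - 4 * A ^ 3 * C + A ^ 2 * B ^ 2 - 4 * B ^ 3 - 27 * C ^ 2 := by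
  have hroot : ∃ t : ℂ, t ^ 3 + (A : ℂ) * t ^ 2 + (B : ℂ) * t + (C : ℂ) = 0 := by
    have hd : (Polynomial.X ^ 3 + Polynomial.C (A : ℂ) * Polynomial.X ^ 2 +
        Polynomial.C (B : ℂ) * Polynomial.X + Polynomial.C (C : ℂ)).degree = 3 := by
      compute_degree!
    obtain ⟨t, ht⟩ := Complex.exists_root (f := Polynomial.X ^ 3 +
      Polynomial.C (A : ℂ) * Polynomial.X ^ 2 +
        Polynomial.C (B : ℂ) * Polynomial.X + Polynomial.C (C : ℂ)) (by rw [hd]; norm_num)
    refine ⟨t, ?_⟩
    simpa [Polynomial.IsRoot.def] using ht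
  obtain ⟨t, ht⟩ := hroot
  have him := h t ht
  obtain ⟨r, rfl⟩ : ∃ r : ℝ, t = (r : ℂ) := ⟨t.re, Complex.ext rfl (by simpa using him)⟩
  have hr : r ^ 3 + A * r ^ 2 + B * r + C = 0 := by exact_mod_cast ht
  -- the quadratic factor
  set b := A + r with hb
  set c := B + r * b with hc
  have hC : C = -(r * c) := by rw [hc, hb]; linarith
  have hdisc : 4 * c ≤ b ^ 2 := by
    by_contra hneg
    push Not at hneg
    set w := Real.sqrt (4 * c - b ^ 2) with hw
    have hw0 : 0 < w := Real.sqrt_pos.mpr (by linarith)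
    have hw2 : w ^ 2 = 4 * c - b ^ 2 := Real.sq_sqrt (by linarith)
    have key := h ((-b / 2 : ℝ) + (w / 2 : ℝ) * Complex.I) (by
      have e1 : (A : ℂ) = b - r := by rw [hb]; push_cast; ring
      have e2 : (B : ℂ) = c - r * b := by rw [hc]; push_cast; ring
      have e3 : (C : ℂ) = -(r * c) := by rw [hC]; push_cast; ring
      rw [e1, e2, e3]
      have hI : Complex.I ^ 2 = -1 := Complex.I_sq
      have hw2' : (w : ℂ) ^ 2 = 4 * c - b ^ 2 := by exact_mod_cast hw2
      set z : ℂ := ((-b / 2 : ℝ) : ℂ) + ((w / 2 : ℝ) : ℂ) * Complex.I with hz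
      have hz2 : z ^ 2 + b * z + c = 0 := by
        rw [hz]
        push_cast
        linear_combination (w : ℂ) ^ 2 / 4 * hI - (1 / 4 : ℂ) * hw2'
      linear_combination (z - r) * hz2)
    simp at key
    exact hw0.ne' key
  have hA : A = b - r := by rw [hb]; ring
  have hB : B = c - r * b := by rw [hc]; ring
  refine ⟨?_, ?_⟩
  · rw [hA, hB, hC]
    nlinarith [sq_nonneg (c + r * b / 2), mul_nonneg (sq_nonneg r) (sub_nonneg.mpr hdisc)]
  · have : 18 * A * B * C - 4 * A ^ 3 * C + A ^ 2 * B ^ 2 - 4 * B ^ 3 - 27 * C ^ 2 =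
        (b ^ 2 - 4 * c) * (r ^ 2 + b * r + c) ^ 2 := by
      rw [hA, hB, hC]; ring
    rw [this]
    exact mul_nonneg (by linarith) (sq_nonneg _)

/-- If `s * h s ≥ 0` for all `s` near `0`, then `h 0 = 0`. -/
lemma zero_of_mul_nonneg (h : ℝ → ℝ) (hc : Continuous h) (H : ∀ᶠ s in 𝓝 (0 : ℝ), 0 ≤ s * h s) :
    h 0 = 0 := by
  apply le_antisymm
  · have h1 : Tendsto h (𝓝[<] (0 : ℝ)) (𝓝 (h 0)) := (hc.tendsto 0).mono_left nhdsWithin_le_nhds
    refine le_of_tendsto h1 ?_
    filter_upwards [nhdsWithin_le_nhds H, self_mem_nhdsWithin] with s hs hs0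
    have : s < 0 := hs0
    by_contra hpos
    push Not at hpos
    nlinarith
  · have h1 : Tendsto h (𝓝[>] (0 : ℝ)) (𝓝 (h 0)) := (hc.tendsto 0).mono_left nhdsWithin_le_nhds
    refine ge_of_tendsto h1 ?_
    filter_upwards [nhdsWithin_le_nhds H, self_mem_nhdsWithin] with s hs hs0
    have : 0 < s := hs0
    by_contra hneg
    push Not at hneg
    nlinarith

/-- The elementary core: no cubic of the given shape has only real roots for all parameters. -/
lemma core (c c0 c1 c2 c3 : ℝ)
    (h : ∀ (a b y z : ℝ) (t : ℂ), t ^ 3 + ((y + z : ℝ) : ℂ) * t ^ 2 +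
      ((-a ^ 2 - b ^ 2 - z * a + c * (y * z) : ℝ) : ℂ) * t +
      ((-y * b ^ 2 + y * z * (c0 * a + c1 * b + c2 * y + c3 * z) : ℝ) : ℂ) = 0 → t.im = 0) :
    False := by
  have hN : ∀ a b y z : ℝ, _ := fun a b y z => cubic_ineq _ _ _ (h a b y z)
  -- `c2 = 0`
  have hc2 : c2 = 0 := by
    have := zero_of_mul_nonneg (fun s => c ^ 2 * s - 3 * (1 + s) * (c2 + c3 * s)) (by fun_prop)
      (Eventually.of_forall fun s => by
        have := (hN 0 0 1 s).1
        nlinarith)
    simp at this
    exact this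
  have hc3 : c3 = 0 := by
    have := zero_of_mul_nonneg (fun s => c ^ 2 * s - 3 * (1 + s) * (c3 + c2 * s)) (by fun_prop)
      (Eventually.of_forall fun s => by
        have := (hN 0 0 s 1).1
        nlinarith)
    simp at this
    exact this
  subst hc2 hc3
  have hc0 : c0 = 0 := by
    have := zero_of_mul_nonneg (fun y => -c0 * (c * y ^ 2 - y + 1)) (by fun_prop) (by
      have h1 : Tendsto (fun y : ℝ => c * y - 1) (𝓝 0) (𝓝 (c * 0 - 1)) :=
        Continuous.tendsto (by fun_prop) 0
      have h2 : ∀ᶠ y in 𝓝 (0 : ℝ), c * y - 1 < 0 :=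
        h1.eventually (Iio_mem_nhds (by norm_num))
      filter_upwards [h2] with y hy
      have hne : c * y - 1 ≠ 0 := hy.ne
      obtain ⟨w, hw⟩ : ∃ w : ℝ, w * (c * y - 1) = 1 := ⟨(c * y - 1)⁻¹, inv_mul_cancel₀ hne⟩
      have := (hN 1 0 y w).1
      have e1 : (-(1 : ℝ) ^ 2 - 0 ^ 2 - w * 1 + c * (y * w)) = 0 := by
        linear_combination hw
      rw [e1] at this
      have e3 : c0 * y * w * (y + w) ≤ 0 := by nlinarith
      have e4 : c0 * y * (c * y ^ 2 - y + 1) = c0 * y * w * (y + w) * (c * y - 1) ^ 2 := by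
        linear_combination (-c0 * y * (y * (c * y - 1) + 1 + w * (c * y - 1))) * hw
      have e5 : c0 * y * (c * y ^ 2 - y + 1) ≤ 0 := by
        rw [e4]
        exact mul_nonpos_of_nonpos_of_nonneg e3 (sq_nonneg _)
      nlinarith)
    simp at this
    exact this
  subst hc0
  -- `c + c1 = 1`
  have hp : c + c1 = 1 := by
    have := zero_of_mul_nonneg (fun z => -32 + 32 * c - 18 * c * c1 * z + 18 * c * c1 * z ^ 2
      - 22 * c * z + 2 * c * z ^ 2 + 13 * c ^ 2 * z - 2 * c ^ 2 * z ^ 2 + c ^ 2 * z ^ 3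
      + 4 * c ^ 3 * z ^ 2 + 32 * c1 + 30 * c1 * z - 12 * c1 * z ^ 2 + 4 * c1 * z ^ 3
      - 27 * c1 ^ 2 * z + 13 * z - 4 * z ^ 2) (by fun_prop)
      (Eventually.of_forall fun z => by
        have := (hN 0 1 (-1) z).2
        convert this using 1
        ring)
    simp at this
    linarith
  -- `c - c1 = 1`
  have hm : c - c1 = 1 := by
    have := zero_of_mul_nonneg (fun z => 32 - 32 * c + 18 * c * c1 * z + 18 * c * c1 * z ^ 2
      - 22 * c * z - 2 * c * z ^ 2 + 13 * c ^ 2 * z + 2 * c ^ 2 * z ^ 2 + c ^ 2 * z ^ 3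
      - 4 * c ^ 3 * z ^ 2 + 32 * c1 - 30 * c1 * z - 12 * c1 * z ^ 2 - 4 * c1 * z ^ 3
      - 27 * c1 ^ 2 * z + 13 * z + 4 * z ^ 2) (by fun_prop)
      (Eventually.of_forall fun z => by
        have := (hN 0 1 1 z).2
        convert this using 1
        ring)
    simp at this
    linarith
  have h3 := (hN 1 0 (-2) (-2)).2
  have e1 : c = 1 := by linarith
  have e2 : c1 = 0 := by linarith
  subst e1 e2
  norm_num at h3

/-! ## Substitutions -/

lemma totalDegree_aeval_le {σ τ : Type} (g : σ → MvPolynomial τ ℝ)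
    (hg : ∀ i, (g i).totalDegree ≤ 1) (f : MvPolynomial σ ℝ) :
    (aeval g f).totalDegree ≤ f.totalDegree := by
  rw [aeval_def, eval₂_eq]
  refine totalDegree_finsetSum_le fun d hd => ?_
  refine (totalDegree_mul _ _).trans ?_
  rw [MvPolynomial.algebraMap_eq, totalDegree_C, zero_add]
  refine (totalDegree_finsetProd _ _).trans ?_
  refine le_trans ?_ (le_totalDegree hd)
  refine Finset.sum_le_sum fun i _ => ?_
  refine (totalDegree_pow _ _).trans ?_
  calc d i * (g i).totalDegree ≤ d i * 1 := Nat.mul_le_mul_left _ (hg i)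
    _ = d i := mul_one _

/-- If a polynomial vanishes after the substitution `X i := 0` then it is divisible by `X i`. -/
lemma X_dvd_of_subst {σ : Type} [DecidableEq σ] (i : σ) (f : MvPolynomial σ ℝ)
    (h : aeval (Function.update (X : σ → MvPolynomial σ ℝ) i 0) f = 0) : X i ∣ f := by
  have key : ∀ f : MvPolynomial σ ℝ, (Ideal.Quotient.mkₐ ℝ (Ideal.span {(X i : MvPolynomial σ ℝ)})) f =
      (Ideal.Quotient.mkₐ ℝ (Ideal.span {(X i : MvPolynomial σ ℝ)}))
        (aeval (Function.update (X : σ → MvPolynomial σ ℝ) i 0) f) := by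
    intro f
    have : (Ideal.Quotient.mkₐ ℝ (Ideal.span {(X i : MvPolynomial σ ℝ)})) =
      (Ideal.Quotient.mkₐ ℝ (Ideal.span {(X i : MvPolynomial σ ℝ)})).comp
        (aeval (Function.update (X : σ → MvPolynomial σ ℝ) i 0)) := by
      apply algHom_ext
      intro j
      by_cases hj : j = i
      · subst hj
        simp
      · simp [Function.update_of_ne hj]
    exact congrArg (fun φ => φ f) this
  have h2 := key f
  rw [h, map_zero] at h2
  have h3 : f ∈ Ideal.span {(X i : MvPolynomial σ ℝ)} := Ideal.Quotient.eq_zero_iff_mem.mp h2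
  exact Ideal.mem_span_singleton.mp h3

/-- A polynomial of total degree at most one in four variables is affine. -/
lemma eval_affine (f : MvPolynomial (Fin 4) ℝ) (hf : f.totalDegree ≤ 1) :
    ∃ c c0 c1 c2 c3 : ℝ, f = C c + C c0 * X 0 + C c1 * X 1 + C c2 * X 2 + C c3 * X 3 := by
  classical
  refine ⟨f.coeff 0, f.coeff (Finsupp.single 0 1), f.coeff (Finsupp.single 1 1),
    f.coeff (Finsupp.single 2 1), f.coeff (Finsupp.single 3 1), ?_⟩
  ext d
  by_cases hd : 1 < d.sum fun _ e => e
  · have h1 : coeff d f = 0 := coeff_eq_zero_of_totalDegree_lt (by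
      have : d.sum (fun _ e => e) = ∑ i ∈ d.support, d i := rfl
      omega)
    have h2 : d ≠ 0 := by
      rintro rfl
      simp at hd
    have h3 : ∀ i : Fin 4, Finsupp.single i 1 ≠ d := by
      rintro i rfl
      simp at hd
    simp [h1, coeff_X, h3, coeff_C, h2.symm]
  · push Not at hd
    have hcases : d = 0 ∨ ∃ i : Fin 4, d = Finsupp.single i 1 := by
      by_cases h0 : d = 0
      · exact Or.inl h0
      · right
        obtain ⟨i, hi⟩ := Finsupp.ne_iff.mp h0
        refine ⟨i, ?_⟩
        have hsum : d.sum (fun _ e => e) = ∑ j : Fin 4, d j := Finsupp.sum_fintype _ _ (by simp)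
        rw [hsum] at hd
        have hi' : 1 ≤ d i := Nat.one_le_iff_ne_zero.mpr hi
        ext j
        by_cases hj : j = i
        · subst hj
          have : d j ≤ ∑ k : Fin 4, d k := Finset.single_le_sum (f := fun k => d k) (by simp) (Finset.mem_univ j)
          simp
          omega
        · have : d i + d j ≤ ∑ k : Fin 4, d k := by
            have := Finset.add_le_sum (f := fun k => d k) (s := Finset.univ) (by simp) (Finset.mem_univ i)
              (Finset.mem_univ j) (Ne.symm hj)
            exact this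
          have h5 : d j = 0 := by omega
          rw [h5, Finsupp.single_apply, if_neg (Ne.symm hj)]
    rcases hcases with rfl | ⟨i, rfl⟩
    · simp [coeff_X]
    · have hne : ∀ i : Fin 4, ¬ (0 = Finsupp.single i 1) := by
        intro i h
        have := DFunLike.congr_fun h i
        simp at this
      fin_cases i <;> simp [coeff_X, coeff_C, Finsupp.single_left_inj, hne]

/-! ## The two polynomials -/

section

variable {m n : ℕ}

/-- `p = 1 - x₁² - x₂² + y (1 - x₂²)`, where `y` is one of the variables of the second group. -/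
noncomputable def pp (j : Fin m) : MvPolynomial (Fin 2 ⊕ Fin m) ℝ :=
  1 - X (Sum.inl 0) ^ 2 - X (Sum.inl 1) ^ 2 + X (Sum.inr j) * (1 - X (Sum.inl 1) ^ 2)

/-- `q = 1 - x₁² - x₂² + z (1 - x₁)`, where `z` is one of the variables of the second group. -/
noncomputable def qq (j : Fin n) : MvPolynomial (Fin 2 ⊕ Fin n) ℝ :=
  1 - X (Sum.inl 0) ^ 2 - X (Sum.inl 1) ^ 2 + X (Sum.inr j) * (1 - X (Sum.inl 0))

lemma realZero_pp (j : Fin m) : RealZero (pp j) := by
  intro a l h
  apply im_eq_zero_of_det !![0, a (Sum.inl 0), a (Sum.inl 1); a (Sum.inl 0), a (Sum.inr j), 0;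
    a (Sum.inl 1), 0, 0]
  · ext i k
    fin_cases i <;> fin_cases k <;> rfl
  · rw [← h, pp, Matrix.det_fin_three]
    simp
    ring

lemma realZero_qq (j : Fin n) : RealZero (qq j) := by
  intro a l h
  apply im_eq_zero_of_det !![-a (Sum.inl 0), a (Sum.inl 1);
    a (Sum.inl 1), a (Sum.inl 0) + a (Sum.inr j)]
  · ext i k
    fin_cases i <;> fin_cases k <;> rfl
  · rw [← h, qq, Matrix.det_fin_two]
    simp
    ring

lemma degree_pp (j : Fin m) : (pp j).totalDegree ≤ 3 := by
  unfold pp
  refine (totalDegree_add _ _).trans (max_le ?_ ?_)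
  · refine (totalDegree_sub _ _).trans (max_le ((totalDegree_sub _ _).trans (max_le ?_ ?_)) ?_)
    · simp
    · rw [totalDegree_X_pow]; norm_num
    · rw [totalDegree_X_pow]; norm_num
  · refine (totalDegree_mul _ _).trans ?_
    rw [totalDegree_X]
    have : (1 - X (Sum.inl 1) ^ 2 : MvPolynomial (Fin 2 ⊕ Fin m) ℝ).totalDegree ≤ 2 := by
      refine (totalDegree_sub _ _).trans (max_le ?_ ?_)
      · simp
      · rw [totalDegree_X_pow]
    omega

lemma degree_qq (j : Fin n) : (qq j).totalDegree ≤ 3 := by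
  unfold qq
  refine (totalDegree_add _ _).trans (max_le ?_ ?_)
  · refine (totalDegree_sub _ _).trans (max_le ((totalDegree_sub _ _).trans (max_le ?_ ?_)) ?_)
    · simp
    · rw [totalDegree_X_pow]; norm_num
    · rw [totalDegree_X_pow]; norm_num
  · refine (totalDegree_mul _ _).trans ?_
    rw [totalDegree_X]
    have : (1 - X (Sum.inl 0) : MvPolynomial (Fin 2 ⊕ Fin n) ℝ).totalDegree ≤ 1 := by
      refine (totalDegree_sub _ _).trans (max_le ?_ ?_)
      · simp
      · rw [totalDegree_X]
    omega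

/-- The substitution into polynomials in `x₁, x₂, y, z`. -/
noncomputable def subst (j : Fin m) (k : Fin n) :
    Fin 2 ⊕ (Fin m ⊕ Fin n) → MvPolynomial (Fin 4) ℝ :=
  Sum.elim ![X 0, X 1] (Sum.elim (fun i => if i = j then X 2 else 0)
    (fun i => if i = k then X 3 else 0))

/-- There is no real zero polynomial of degree at most three which restricts to `pp` and `qq`. -/
lemma no_amalgam (j : Fin m) (k : Fin n) (r : MvPolynomial (Fin 2 ⊕ (Fin m ⊕ Fin n)) ℝ)
    (hr : RealZero r) (hd : r.totalDegree ≤ 3) (h1 : zZero r = pp j) (h2 : yZero r = qq k) :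
    False := by
  classical
  set R : MvPolynomial (Fin 4) ℝ := aeval (subst j k) r with hR
  have hRd : R.totalDegree ≤ 3 := by
    refine (totalDegree_aeval_le _ ?_ r).trans hd
    rintro (i | i | i)
    · fin_cases i <;> simp [subst, totalDegree_X]
    · simp only [subst, Sum.elim_inr, Sum.elim_inl]
      split_ifs <;> simp [totalDegree_X]
    · simp only [subst, Sum.elim_inr]
      split_ifs <;> simp [totalDegree_X]
  -- the substitution `z = 0`
  have hz : aeval (Function.update (X : Fin 4 → MvPolynomial (Fin 4) ℝ) 3 0) R =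
      1 - X 0 ^ 2 - X 1 ^ 2 + X 2 * (1 - X 1 ^ 2) := by
    have e1 : aeval (Function.update (X : Fin 4 → MvPolynomial (Fin 4) ℝ) 3 0) R =
        aeval (Sum.elim ![X 0, X 1] (fun i => if i = j then (X 2 : MvPolynomial (Fin 4) ℝ) else 0))
          (zZero r) := by
      rw [hR, zZero, ← AlgHom.comp_apply, ← AlgHom.comp_apply]
      congr 1
      apply algHom_ext
      rintro (i | i | i)
      · fin_cases i <;> simp [subst]
      · simp only [subst, AlgHom.comp_apply, aeval_X, Sum.elim_inr, Sum.elim_inl]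
        split_ifs <;> simp
      · simp only [subst, AlgHom.comp_apply, aeval_X, Sum.elim_inr]
        split_ifs <;> simp
    rw [e1, h1, pp]
    simp
  have hy : aeval (Function.update (X : Fin 4 → MvPolynomial (Fin 4) ℝ) 2 0) R =
      1 - X 0 ^ 2 - X 1 ^ 2 + X 3 * (1 - X 0) := by
    have e1 : aeval (Function.update (X : Fin 4 → MvPolynomial (Fin 4) ℝ) 2 0) R =
        aeval (Sum.elim ![X 0, X 1] (fun i => if i = k then (X 3 : MvPolynomial (Fin 4) ℝ) else 0))
          (yZero r) := by
      rw [hR, yZero, ← AlgHom.comp_apply, ← AlgHom.comp_apply]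
      congr 1
      apply algHom_ext
      rintro (i | i | i)
      · fin_cases i <;> simp [subst]
      · simp only [subst, AlgHom.comp_apply, aeval_X, Sum.elim_inr, Sum.elim_inl]
        split_ifs <;> simp
      · simp only [subst, AlgHom.comp_apply, aeval_X, Sum.elim_inr]
        split_ifs <;> simp
    rw [e1, h2, qq]
    simp
  set T : MvPolynomial (Fin 4) ℝ := 1 - X 0 ^ 2 - X 1 ^ 2 + X 2 * (1 - X 1 ^ 2) +
    X 3 * (1 - X 0) with hT
  have hTd : T.totalDegree ≤ 3 := by
    have e0 : (1 - X 1 ^ 2 : MvPolynomial (Fin 4) ℝ).totalDegree ≤ 2 := by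
      refine (totalDegree_sub _ _).trans (max_le ?_ ?_)
      · simp
      · rw [totalDegree_X_pow]
    have e1 : (1 - X 0 : MvPolynomial (Fin 4) ℝ).totalDegree ≤ 1 := by
      refine (totalDegree_sub _ _).trans (max_le ?_ ?_)
      · simp
      · rw [totalDegree_X]
    rw [hT]
    refine (totalDegree_add _ _).trans (max_le ((totalDegree_add _ _).trans (max_le ?_ ?_)) ?_)
    · refine (totalDegree_sub _ _).trans (max_le ((totalDegree_sub _ _).trans (max_le ?_ ?_)) ?_)
      · simp
      · rw [totalDegree_X_pow]; norm_num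
      · rw [totalDegree_X_pow]; norm_num
    · refine (totalDegree_mul _ _).trans ?_
      rw [totalDegree_X]
      omega
    · refine (totalDegree_mul _ _).trans ?_
      rw [totalDegree_X]
      omega
  have hdiv2 : X 2 ∣ R - T := by
    apply X_dvd_of_subst
    rw [map_sub, hy, hT]
    simp
  have hdiv3 : X 3 ∣ R - T := by
    apply X_dvd_of_subst
    rw [map_sub, hz, hT]
    simp
  obtain ⟨g, hg⟩ := hdiv2
  rw [hg] at hdiv3
  have hdg : X 3 ∣ g := by
    rcases (X_prime (R := ℝ) (σ := Fin 4) (i := 3)).dvd_or_dvd hdiv3 with h | h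
    · rw [X_dvd_X] at h
      exact absurd h (by decide)
    · exact h
  obtain ⟨L, rfl⟩ := hdg
  have hL : L.totalDegree ≤ 1 := by
    by_cases hL0 : L = 0
    · simp [hL0]
    · have h3 : (X 2 * (X 3 * L) : MvPolynomial (Fin 4) ℝ).totalDegree = 2 + L.totalDegree := by
        rw [totalDegree_mul_of_isDomain (X_ne_zero _) (mul_ne_zero (X_ne_zero _) hL0),
          totalDegree_mul_of_isDomain (X_ne_zero _) hL0, totalDegree_X, totalDegree_X]
        ring
      have h4 : (R - T).totalDegree ≤ 3 := (totalDegree_sub _ _).trans (max_le hRd hTd)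
      rw [hg, h3] at h4
      omega
  obtain ⟨c, c0, c1, c2, c3, hLe⟩ := eval_affine L hL
  have hRe : R = T + X 2 * (X 3 * L) := by rw [← hg]; ring
  -- `R` is a real zero polynomial
  have hRR : RealZero R := by
    intro a l hl
    apply hr (Sum.elim ![a 0, a 1] (Sum.elim (fun i => if i = j then a 2 else 0)
      (fun i => if i = k then a 3 else 0))) l
    have e1 : aeval (fun i : Fin 4 => l * ((![a 0, a 1, a 2, a 3] i : ℝ) : ℂ)) R =
        aeval (fun i => l * ((Sum.elim ![a 0, a 1] (Sum.elim (fun i => if i = j then a 2 else 0)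
          (fun i => if i = k then a 3 else 0)) i : ℝ) : ℂ)) r := by
      rw [hR]
      have : ((aeval (fun i : Fin 4 => l * ((![a 0, a 1, a 2, a 3] i : ℝ) : ℂ))).comp
          (aeval (subst j k)) : MvPolynomial (Fin 2 ⊕ (Fin m ⊕ Fin n)) ℝ →ₐ[ℝ] ℂ) =
          aeval (fun i => l * ((Sum.elim ![a 0, a 1] (Sum.elim (fun i => if i = j then a 2 else 0)
          (fun i => if i = k then a 3 else 0)) i : ℝ) : ℂ)) := by
        apply algHom_ext
        rintro (i | i | i)
        · fin_cases i <;> simp [subst]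
        · simp only [subst, AlgHom.comp_apply, aeval_X, Sum.elim_inr, Sum.elim_inl]
          split_ifs <;> simp
        · simp only [subst, AlgHom.comp_apply, aeval_X, Sum.elim_inr]
          split_ifs <;> simp
      exact congrArg (fun φ => φ r) this
    have e2 : (fun i : Fin 4 => l * ((![a 0, a 1, a 2, a 3] i : ℝ) : ℂ)) =
        fun i => l * ((a i : ℝ) : ℂ) := by
      funext i
      fin_cases i <;> simp
    rw [← e1, e2]
    exact hl
  apply core c c0 c1 c2 c3
  intro a b y z t ht
  by_cases ht0 : t = 0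
  · simp [ht0]
  have := hRR ![a, b, y, z] t⁻¹ (by
    rw [hRe, hT, hLe]
    simp
    have h5 : t ^ 3 ≠ 0 := pow_ne_zero _ ht0
    apply mul_left_cancel₀ h5
    rw [mul_zero, ← ht]
    push_cast
    field_simp
    ring)
  rw [Complex.inv_im] at this
  have hn : Complex.normSq t ≠ 0 := by simpa using ht0
  simpa [hn] using this

end

/-- **Degree-preserving amalgamation of real zero polynomials with two shared variables fails**: for
all `m, n ≥ 1` there are real zero polynomials `p ∈ ℝ[x, y]` and `q ∈ ℝ[x, z]`, where `x` consists of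
two, `y` of `m` and `z` of `n` variables, of degree at most three and with `p(x, 0) = q(x, 0)`, such
that no real zero polynomial `r ∈ ℝ[x, y, z]` of degree at most three satisfies `r(x, y, 0) = p` and
`r(x, 0, z) = q`. -/
theorem result (m n : ℕ) (hm : 1 ≤ m) (hn : 1 ≤ n) :
    ∃ (p : MvPolynomial (Fin 2 ⊕ Fin m) ℝ) (q : MvPolynomial (Fin 2 ⊕ Fin n) ℝ),
      RealZero p ∧ RealZero q ∧ p.totalDegree ≤ 3 ∧ q.totalDegree ≤ 3 ∧ atZero p = atZero q ∧
      ¬ ∃ r : MvPolynomial (Fin 2 ⊕ (Fin m ⊕ Fin n)) ℝ,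
        RealZero r ∧ r.totalDegree ≤ 3 ∧ zZero r = p ∧ yZero r = q := by
  refine ⟨pp ⟨0, hm⟩, qq ⟨0, hn⟩, realZero_pp _, realZero_qq _, degree_pp _, degree_qq _, ?_, ?_⟩
  · simp [atZero, pp, qq]
  · rintro ⟨r, hr, hd, h1, h2⟩
    exact no_amalgam _ _ r hr hd h1 h2

end Pool.Agent.Results.MP_eea824_ag.NoDegreePreservingAmalgam
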